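import Pool.Agent.Helper35.SHQ.Sheet

/-! Row FIN of the sheet `Pool.Agent.Helper35.SHQ.Sheet`. -/

namespace SHQ
open scoped ENNReal
open Filter Topology

theorem st_FIN (hD : ST_DEF) (hP : ST_PEN) : ST_FIN := by
  intro L z hz hL hLz hcard g
  obtain ⟨_, _, hsq, hlen, _⟩ := hP
  set zz : ℝ≥0∞ := ENNReal.ofReal z with hzz
  have hz0 : zz ≠ 0 := by simpa [hzz] using hz
  let A : ℕ → Set W := fun n => {s | s.length = 2 * n ∧ SQ s}
  have hAf : ∀ n, (A n).Finite := fun n =>
    (List.finite_length_eq (Fin 3) (2 * n)).subset (fun s hs => hs.1)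
  have key : zz * F zz (.one g .nil) ≤
      ∑' n : ℕ, ∑' s : W, (A n).indicator (fun _ => zz ^ (2 * n)) s := by
    rw [ENNReal.tsum_comm]
    unfold F Sg
    rw [← ENNReal.tsum_mul_left]
    have inj : Function.Injective (fun x : W => g :: x) := List.cons_injective
    refine le_trans ?_ (ENNReal.tsum_comp_le_tsum_of_injective inj _)
    refine ENNReal.tsum_le_tsum fun x => ?_
    by_cases hx : ∃ u ∈ (Tr.one g .nil).lang, Pend u x
    · have hp : Pend [g] x := by
        obtain ⟨u, hu, hp⟩ := hx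
        have : u = [g] := by simpa [Tr.lang] using hu
        rwa [this] at hp
      have hs := hsq _ _ hp
      obtain ⟨n, hn⟩ := hlen _ hs
      have hn' : x.length + 1 = 2 * n := by simpa using hn
      rw [Set.indicator_of_mem (show x ∈ {x : W | ∃ u ∈ (Tr.one g .nil).lang, Pend u x} from hx)]
      calc zz * zz ^ x.length = zz ^ (2 * n) := by rw [← pow_succ', hn']
        _ = (A n).indicator (fun _ => zz ^ (2 * n)) (g :: x) := by
          rw [Set.indicator_of_mem]
          exact ⟨by simpa using hn', hs⟩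
        _ ≤ _ := ENNReal.le_tsum (f := fun n => (A n).indicator (fun _ => zz ^ (2 * n)) (g :: x)) n
    · rw [Set.indicator_of_notMem
        (show x ∉ {x : W | ∃ u ∈ (Tr.one g .nil).lang, Pend u x} from hx), mul_zero]
      exact zero_le
  have h2 : ∀ n, ∑' s : W, (A n).indicator (fun _ => zz ^ (2 * n)) s ≤
      ENNReal.ofReal (L * z ^ 2) ^ n := by
    intro n
    rw [← tsum_subtype, ENNReal.tsum_set_const, ← (hAf n).cast_ncard_eq]
    have h3 : ((A n).ncard : ℝ) ≤ L ^ n := by
      have := hcard n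
      rw [hD n] at this
      exact this
    have h4 : ENNReal.ofReal (L * z ^ 2) ^ n = ENNReal.ofReal (L ^ n) * zz ^ (2 * n) := by
      rw [← ENNReal.ofReal_pow (by positivity), mul_pow, ENNReal.ofReal_mul (by positivity), hzz,
        ← ENNReal.ofReal_pow hz.le, ← pow_mul]
    rw [h4]
    refine mul_le_mul_left ?_ _
    have h5 : (((A n).ncard : ℕ∞) : ℝ≥0∞) = ENNReal.ofReal ((A n).ncard : ℝ) := by
      rw [ENNReal.ofReal_natCast]
      rfl
    rw [h5]
    exact ENNReal.ofReal_le_ofReal h3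
  have h6 : zz * F zz (.one g .nil) < ⊤ := by
    refine (key.trans (ENNReal.tsum_le_tsum h2)).trans_lt ?_
    rw [ENNReal.tsum_geometric, ENNReal.inv_lt_top, tsub_pos_iff_lt]
    rw [ENNReal.ofReal_lt_one]
    exact hLz
  by_contra hF
  have hF' : F zz (.one g .nil) = ⊤ := not_lt_top_iff.1 hF
  rw [hF', ENNReal.mul_top hz0] at h6
  exact lt_irrefl _ h6

end SHQ
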